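import Pool.Agent.Run7.h402.PG.IfaceS

/-!
# Pieces SB and SC of project PG (helper402, MP_51e72e_nt), by helper834
-/

set_option autoImplicit false
set_option linter.all false

open Finset Polynomial

namespace Run7.h834.PG

open Run7.h402.PG

theorem one_sub_ge (x : ℝ) (h1 : x ≤ 1 / 2) : Real.exp (-(x / (1 - x))) ≤ 1 - x := by
  have h0 : 0 < 1 - x := by linarith
  have h2 : 1 / (1 - x) ≤ Real.exp (x / (1 - x)) := by
    have h3 := Real.add_one_le_exp (x / (1 - x))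
    have h4 : x / (1 - x) + 1 = 1 / (1 - x) := by field_simp; ring
    linarith
  rw [Real.exp_neg, inv_le_comm₀ (Real.exp_pos _) h0, ← one_div]
  exact h2

theorem one_sub_ge2 (x : ℝ) (h0 : 0 ≤ x) (h1 : x ≤ 1 / 2) : Real.exp (-(2 * x)) ≤ 1 - x := by
  refine le_trans ?_ (one_sub_ge x h1)
  rw [Real.exp_le_exp, neg_le_neg_iff, div_le_iff₀ (by linarith)]
  nlinarith

theorem one_sub_ge3 (x : ℝ) (h0 : 0 ≤ x) (h1 : x ≤ 1 / 2) :
    Real.exp (-x - 2 * x ^ 2) ≤ 1 - x := by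
  refine le_trans ?_ (one_sub_ge x h1)
  rw [Real.exp_le_exp, ← neg_add', neg_le_neg_iff, div_le_iff₀ (by linarith)]
  nlinarith [mul_nonneg (sq_nonneg x) (by linarith : 0 ≤ 1 - 2 * x)]

/-- `ν / p ≤ D K / p ≤ 1 / 8` -/
theorem nu_div {K : ℕ} (P : Fin K → ℤ[X]) (m : Fin K → ℤ) (p D : ℕ) (hp : p.Prime)
    (hν : nuS P m p ≤ D * K) (h8 : 8 * D * K < p) :
    0 ≤ (nuS P m p : ℝ) / p ∧ (nuS P m p : ℝ) / p ≤ (D : ℝ) * K / p ∧ (D : ℝ) * K / p ≤ 1 / 8 := by
  have hp0 : (0 : ℝ) < p := by exact_mod_cast hp.pos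
  have h1 : (nuS P m p : ℝ) ≤ (D : ℝ) * K := by exact_mod_cast hν
  have h2 : 8 * (D : ℝ) * K < p := by exact_mod_cast h8
  refine ⟨by positivity, div_le_div_of_nonneg_right h1 hp0.le, ?_⟩
  rw [div_le_iff₀ hp0]
  linarith

theorem pow_facts (K p : ℕ) (hp : p.Prime) :
    0 < (1 - 1 / (p : ℝ)) ^ K ∧ (1 - 1 / (p : ℝ)) ^ K ≤ 1 ∧
      (1 - 1 / (p : ℝ)) ^ K ≤ Real.exp (-(K / p)) := by
  have hp2 : (2 : ℝ) ≤ p := by exact_mod_cast hp.two_le
  have h1 : 1 / (p : ℝ) ≤ 1 / 2 := one_div_le_one_div_of_le (by norm_num) hp2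
  have h2 : 0 < 1 / (p : ℝ) := by positivity
  have h3 : 0 < 1 - 1 / (p : ℝ) := by linarith
  refine ⟨by positivity, pow_le_one₀ h3.le (by linarith), ?_⟩
  have h4 : 1 - 1 / (p : ℝ) ≤ Real.exp (-(1 / (p : ℝ))) := Real.one_sub_le_exp_neg _
  calc (1 - 1 / (p : ℝ)) ^ K ≤ (Real.exp (-(1 / (p : ℝ)))) ^ K := pow_le_pow_left₀ h3.le h4 _
    _ = Real.exp (-(K / p)) := by
        rw [← Real.exp_nat_mul]; congr 1; ring

theorem t_SB (hNU : S_NU) (hMER : S_MER) : S_SB := by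
  intro B D E1 hE1
  obtain ⟨C, hC⟩ := hMER
  have hC0 : 0 ≤ C := (abs_nonneg _).trans (hC 3 le_rfl)
  obtain ⟨T, hT⟩ : ∃ T, T = Real.log (2 * E1) + 2 * C := ⟨_, rfl⟩
  have hE1' : (1 : ℝ) ≤ E1 := by exact_mod_cast hE1
  have hT0 : 0 ≤ T := by
    rw [hT]
    have := Real.log_nonneg (by linarith : (1 : ℝ) ≤ 2 * E1)
    linarith
  refine ⟨⌈2 * (D : ℝ) * B * T⌉₊, 256, ?_⟩
  intro L hL K P w W U m hH
  obtain ⟨hK, hD, hKB, hdeg, hprim, h8, hW, hU⟩ := hH
  have hL0 : 0 < L := by linarith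
  have hlog : 0 < Real.log L := Real.log_pos (by linarith)
  obtain ⟨s, hs⟩ : ∃ s, s = (Icc 1 ⌊L ^ E1⌋₊).filter
    (fun p => p.Prime ∧ w < p ∧ ⌊L / 8⌋₊ < p) := ⟨_, rfl⟩
  rw [← hs]
  -- each factor
  have hfac : ∀ p ∈ s, Real.exp (-(2 * (D * K) * (1 / (p : ℝ)))) ≤ Fac P m p := by
    intro p hp
    rw [hs, mem_filter] at hp
    obtain ⟨_, hpp, hwp, _⟩ := hp
    have h1 := nu_div P m p D hpp (hNU.2.2 K D p P m hpp hdeg fun i => hprim i p hpp)
      (lt_of_le_of_lt h8 hwp)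
    obtain ⟨ha, hb, hc⟩ := h1
    obtain ⟨h2, h3, _⟩ := pow_facts K p hpp
    have h4 := one_sub_ge2 (nuS P m p / p) ha (by linarith)
    rw [Fac, le_div_iff₀ h2]
    have h5 : Real.exp (-(2 * (D * K) * (1 / (p : ℝ)))) ≤ 1 - (nuS P m p : ℝ) / p := by
      refine le_trans ?_ h4
      rw [Real.exp_le_exp, neg_le_neg_iff]
      have h6 : 2 * ((D : ℝ) * K) * (1 / (p : ℝ)) = 2 * ((D : ℝ) * K / p) := by ring
      rw [h6]
      linarith
    calc Real.exp (-(2 * (D * K) * (1 / (p : ℝ)))) * (1 - 1 / (p : ℝ)) ^ K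
        ≤ Real.exp (-(2 * (D * K) * (1 / (p : ℝ)))) * 1 :=
          mul_le_mul_of_nonneg_left h3 (Real.exp_pos _).le
      _ ≤ _ := by rw [mul_one]; exact h5
  refine le_trans ?_ (prod_le_prod (fun p _ => (Real.exp_pos _).le) hfac)
  rw [← Real.exp_sum, sum_neg_distrib, ← mul_sum]
  -- the sum of the reciprocals
  have hsum : ∑ p ∈ s, 1 / (p : ℝ) ≤ T := by
    obtain ⟨N1, hN1⟩ : ∃ N1, N1 = ⌊L / 8⌋₊ := ⟨_, rfl⟩
    obtain ⟨N2, hN2⟩ : ∃ N2, N2 = ⌊L ^ E1⌋₊ := ⟨_, rfl⟩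
    have hLp : L ≤ L ^ E1 := by
      calc L = L ^ 1 := (pow_one L).symm
        _ ≤ L ^ E1 := pow_le_pow_right₀ (by linarith) hE1
    have h12 : N1 ≤ N2 := by
      rw [hN1, hN2]; exact Nat.floor_le_floor (by linarith)
    have hN1' : L / 16 ≤ N1 := by
      have := Nat.lt_floor_add_one (L / 8)
      rw [← hN1] at this
      linarith
    have hN1r : (16 : ℝ) ≤ N1 := by linarith
    have hN1n : 3 ≤ N1 := by
      have : (3 : ℝ) ≤ N1 := by linarith
      exact_mod_cast this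
    have hN2n : 3 ≤ N2 := hN1n.trans h12
    have h1 := abs_le.1 (hC N1 hN1n)
    have h2 := abs_le.1 (hC N2 hN2n)
    have hsub : (Icc 1 N1).filter Nat.Prime ⊆ (Icc 1 N2).filter Nat.Prime := by
      intro p hp
      rw [mem_filter, mem_Icc] at hp ⊢
      exact ⟨⟨hp.1.1, hp.1.2.trans h12⟩, hp.2⟩
    have h3 := sum_sdiff hsub (f := fun p : ℕ => 1 / (p : ℝ))
    have h4 : ∑ p ∈ s, 1 / (p : ℝ) ≤
        ∑ p ∈ (Icc 1 N2).filter Nat.Prime \ (Icc 1 N1).filter Nat.Prime, 1 / (p : ℝ) := by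
      apply sum_le_sum_of_subset_of_nonneg
      · intro p hp
        rw [hs, ← hN1, ← hN2, mem_filter] at hp
        rw [mem_sdiff, mem_filter, mem_filter]
        refine ⟨⟨hp.1, hp.2.1⟩, fun h => ?_⟩
        have := (mem_Icc.1 h.1).2
        omega
      · intro p _ _; positivity
    have h5 : Real.log (Real.log N2) ≤ Real.log (E1 * Real.log L) := by
      have h6 : Real.log N2 ≤ E1 * Real.log L := by
        rw [← Real.log_pow]
        apply Real.log_le_log (by linarith [(by exact_mod_cast h12 : (N1 : ℝ) ≤ N2)])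
        rw [hN2]
        exact Nat.floor_le (by positivity)
      apply Real.log_le_log _ h6
      exact Real.log_pos (by linarith [(by exact_mod_cast h12 : (N1 : ℝ) ≤ N2)])
    have h6 : Real.log (Real.log L / 2) ≤ Real.log (Real.log N1) := by
      apply Real.log_le_log (by positivity)
      have h7 : L ≤ (N1 : ℝ) ^ 2 := by nlinarith
      have h8 := Real.log_le_log hL0 h7
      rw [Real.log_pow] at h8
      push_cast at h8
      linarith
    have h7 : Real.log (E1 * Real.log L) - Real.log (Real.log L / 2) = Real.log (2 * E1) := by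
      rw [← Real.log_div (by positivity) (by positivity)]
      congr 1
      field_simp
    rw [hT]
    linarith [h1.1, h2.2]
  -- conclusion
  have hA : 2 * (D : ℝ) * B * T ≤ (⌈2 * (D : ℝ) * B * T⌉₊ : ℝ) := Nat.le_ceil _
  rw [one_div, ← Real.exp_log (pow_pos hL0 _), ← Real.exp_neg, Real.exp_le_exp, neg_le_neg_iff,
    Real.log_pow]
  calc 2 * ((D : ℝ) * K) * ∑ p ∈ s, 1 / (p : ℝ) ≤ 2 * ((D : ℝ) * K) * T :=
        mul_le_mul_of_nonneg_left hsum (by positivity)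
    _ = (2 * D * T) * K := by ring
    _ ≤ (2 * D * T) * (B * Real.log L) := mul_le_mul_of_nonneg_left hKB (by positivity)
    _ = (2 * (D : ℝ) * B * T) * Real.log L := by ring
    _ ≤ _ := mul_le_mul_of_nonneg_right hA hlog.le

end Run7.h834.PG
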