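import Pool.Agent.Run7.h402.PG.IfaceS
import Pool.Agent.Run7.h834.PG.SB

/-!
# Piece SC of project PG (helper402, MP_51e72e_nt), by helper834
-/

set_option autoImplicit false
set_option linter.all false

open Finset Polynomial

namespace Run7.h834.PG

open Run7.h402.PG

/-- the lower bound for a factor -/
theorem fac_ge {K : ℕ} (P : Fin K → ℤ[X]) (m : Fin K → ℤ) (p D : ℕ) (hp : p.Prime)
    (hν : nuS P m p ≤ D * K) (hνr : nuS P m p ≤ ∑ i, rho (P i) (m i) p) (h8 : 8 * D * K < p) :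
    Real.exp (-(∑ i, ((rho (P i) (m i) p : ℝ) - 1) / p) - 2 * ((D : ℝ) * K) ^ 2 * (1 / (p : ℝ) ^ 2))
      ≤ Fac P m p := by
  obtain ⟨ha, hb, hc⟩ := nu_div P m p D hp hν h8
  obtain ⟨h2, h3, h4⟩ := pow_facts K p hp
  have hp0 : (0 : ℝ) < p := by exact_mod_cast hp.pos
  have h5 := one_sub_ge3 (nuS P m p / p) ha (by linarith)
  rw [Fac, le_div_iff₀ h2]
  have h6 : (nuS P m p : ℝ) / p ≤ (∑ i, (rho (P i) (m i) p : ℝ)) / p := by
    apply div_le_div_of_nonneg_right _ hp0.le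
    exact_mod_cast hνr
  have h7 : ∑ i, ((rho (P i) (m i) p : ℝ) - 1) / p =
      (∑ i, (rho (P i) (m i) p : ℝ)) / p - K / p := by
    rw [← sum_div, sum_sub_distrib, sub_div]
    simp
  have h8' : ((nuS P m p : ℝ) / p) ^ 2 ≤ ((D : ℝ) * K) ^ 2 * (1 / (p : ℝ) ^ 2) := by
    calc ((nuS P m p : ℝ) / p) ^ 2 ≤ ((D : ℝ) * K / p) ^ 2 := pow_le_pow_left₀ ha hb _
      _ = _ := by rw [div_pow]; ring
  calc Real.exp (-(∑ i, ((rho (P i) (m i) p : ℝ) - 1) / p) -
        2 * ((D : ℝ) * K) ^ 2 * (1 / (p : ℝ) ^ 2)) * (1 - 1 / (p : ℝ)) ^ K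
      ≤ Real.exp (-(∑ i, ((rho (P i) (m i) p : ℝ) - 1) / p) -
        2 * ((D : ℝ) * K) ^ 2 * (1 / (p : ℝ) ^ 2)) * Real.exp (-(K / p)) :=
        mul_le_mul_of_nonneg_left h4 (Real.exp_pos _).le
    _ ≤ Real.exp (-(nuS P m p / p : ℝ) - 2 * (nuS P m p / p : ℝ) ^ 2) := by
        rw [← Real.exp_add, Real.exp_le_exp, h7]
        linarith
    _ ≤ _ := h5

/-- the tail of `∑ 1 / n ^ 2` -/
theorem tail_sq (s : Finset ℕ) (N z : ℕ) (hN : 1 ≤ N) (hs : ∀ p ∈ s, N < p ∧ p ≤ z) :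
    ∑ p ∈ s, 1 / (p : ℝ) ^ 2 ≤ 1 / (N : ℝ) := by
  rcases le_or_gt N z with h | h
  · have h1 : ∑ p ∈ s, 1 / (p : ℝ) ^ 2 ≤ ∑ p ∈ Ioc N z, ((p : ℝ) ^ 2)⁻¹ := by
      simp only [one_div]
      apply sum_le_sum_of_subset_of_nonneg
      · intro p hp; exact mem_Ioc.2 (hs p hp)
      · intro p _ _; positivity
    have h2 := sum_Ioc_inv_sq_le_sub (α := ℝ) (by omega : N ≠ 0) h
    have h3 : (0 : ℝ) ≤ (z : ℝ)⁻¹ := by positivity
    rw [one_div]
    linarith
  · have : s = ∅ := by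
      rw [eq_empty_iff_forall_notMem]
      intro p hp
      have := hs p hp
      omega
    rw [this]; simp

/-- a function of one coordinate, summed over a box -/
theorem box_le {K : ℕ} (U : Fin K → ℕ) (i : Fin K) (g : ℕ → ℝ) (hg : ∀ x, 0 ≤ g x) (t : ℝ)
    (h : ∑ x ∈ range (U i), g x ≤ U i * t) :
    ∑ u ∈ Fintype.piFinset (fun i : Fin K => range (U i)), g (u i) ≤ (∏ j, (U j : ℝ)) * t := by
  have h1 : ∀ u : Fin K → ℕ, g (u i) = ∏ j, (if j = i then g (u j) else 1) := by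
    intro u
    rw [prod_ite_eq' univ i fun j => g (u j)]
    simp
  have h2 : ∑ u ∈ Fintype.piFinset (fun i : Fin K => range (U i)), g (u i) =
      ∏ j, ∑ x ∈ range (U j), (if j = i then g x else 1) := by
    rw [prod_univ_sum]
    exact sum_congr rfl fun u _ => h1 u
  rw [h2]
  have h3 : ∀ j, ∑ x ∈ range (U j), (if j = i then g x else 1) ≤
      (U j : ℝ) * (if j = i then t else 1) := by
    intro j
    by_cases hj : j = i
    · subst hj; simpa using h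
    · simp [hj]
  calc ∏ j, ∑ x ∈ range (U j), (if j = i then g x else 1)
      ≤ ∏ j, ((U j : ℝ) * (if j = i then t else 1)) := by
        apply prod_le_prod (fun j _ => ?_) (fun j _ => h3 j)
        apply sum_nonneg; intro x _
        split_ifs
        · exact hg x
        · norm_num
    _ = (∏ j, (U j : ℝ)) * t := by
        rw [prod_mul_distrib, prod_ite_eq' univ i fun _ => t]
        simp

theorem t_SC (hNU : S_NU) (hLC : S_LC) : S_SC := by
  intro A B D E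
  -- the threshold
  have hev := ((isLittleO_pow_exp_pos_mul_atTop (k := 2 * E + A + 4) (b := 1 / 4)
    (by norm_num)).bound (c := 1) one_pos)
  obtain ⟨L1, hL1⟩ := Filter.eventually_atTop.1 hev
  refine ⟨|L1| + 100 + 2 * D * B, ?_⟩
  intro L hL K P w W U c z hH hz
  obtain ⟨hK, hD, hKB, hdeg, hprim, h8, hW, hU⟩ := hH
  have hDB0 : 0 ≤ 2 * (D : ℝ) * B := by positivity
  have hL100 : 100 ≤ L := by linarith [abs_nonneg L1]
  have hLL1 : L1 ≤ L := by linarith [le_abs_self L1]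
  have hLDB : 2 * (D : ℝ) * B ≤ L := by linarith [abs_nonneg L1]
  have hL0 : 0 < L := by linarith
  have hpowexp : L ^ (2 * E + A + 4) ≤ Real.exp (L / 4) := by
    have h := hL1 L hLL1
    rw [Real.norm_eq_abs, Real.norm_eq_abs, one_mul, abs_of_pos (by positivity),
      abs_of_pos (Real.exp_pos _)] at h
    refine h.trans (le_of_eq ?_)
    congr 1; ring
  have hlog2 : 2 ≤ Real.log L := by
    rw [Real.le_log_iff_exp_le hL0]
    have h1 : Real.exp 2 = Real.exp 1 * Real.exp 1 := by rw [← Real.exp_add]; norm_num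
    have h2 := Real.exp_one_lt_d9
    have h3 := Real.exp_pos 1
    rw [h1]
    nlinarith
  have hlogL : Real.log L ≤ L := (Real.log_le_sub_one_of_pos hL0).trans (by linarith)
  have hlog0 : 0 ≤ Real.log L := by linarith
  obtain ⟨N, hN⟩ : ∃ N, N = ⌊L ^ (A + 4)⌋₊ := ⟨_, rfl⟩
  have hLA : 2 ≤ L ^ (A + 4) := by
    calc (2 : ℝ) ≤ L ^ 1 := by rw [pow_one]; linarith
      _ ≤ L ^ (A + 4) := pow_le_pow_right₀ (by linarith) (by omega)
  have hNl : L ^ (A + 4) / 2 ≤ N := by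
    have := Nat.lt_floor_add_one (L ^ (A + 4))
    rw [← hN] at this
    linarith
  have hN1 : 1 ≤ N := by
    have : (1 : ℝ) ≤ N := by linarith
    exact_mod_cast this
  obtain ⟨s, hs⟩ : ∃ s, s = (Icc 1 z).filter
    (fun p => p.Prime ∧ w < p ∧ ⌊L ^ (A + 4)⌋₊ < p) := ⟨_, rfl⟩
  rw [← hs]
  have hsp : ∀ p ∈ s, p.Prime ∧ w < p ∧ N < p ∧ p ≤ z := by
    intro p hp
    rw [hs, mem_filter, mem_Icc, ← hN] at hp
    exact ⟨hp.2.1, hp.2.2.1, hp.2.2.2, hp.1.2⟩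
  have hsq : ∑ p ∈ s, 1 / (p : ℝ) ^ 2 ≤ 2 / L ^ (A + 4) := by
    refine (tail_sq s N z hN1 fun p hp => ⟨(hsp p hp).2.2.1, (hsp p hp).2.2.2⟩).trans ?_
    calc 1 / (N : ℝ) ≤ 1 / (L ^ (A + 4) / 2) :=
          one_div_le_one_div_of_le (by positivity) hNl
      _ = _ := by field_simp
  have hscard : (s.card : ℝ) ≤ L ^ E := by
    refine le_trans ?_ hz
    have h1 : s.card ≤ (Icc 1 z).card := by rw [hs]; exact card_filter_le _ _
    rw [Nat.card_Icc] at h1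
    exact_mod_cast (by omega : s.card ≤ z)
  have hK2 : (K : ℝ) ^ 2 ≤ (B * Real.log L) ^ 2 := pow_le_pow_left₀ (by positivity) hKB _
  -- `(D K)^2 ≤ L^4 / 4`
  have hDK : ((D : ℝ) * K) ^ 2 ≤ L ^ 4 / 4 := by
    have h1 : (D : ℝ) * K ≤ D * (B * L) := by
      apply mul_le_mul_of_nonneg_left _ (by positivity)
      exact hKB.trans (mul_le_mul_of_nonneg_left hlogL (by positivity))
    have h2 : (D : ℝ) * (B * L) ≤ L ^ 2 / 2 := by nlinarith
    calc ((D : ℝ) * K) ^ 2 ≤ (L ^ 2 / 2) ^ 2 := pow_le_pow_left₀ (by positivity) (h1.trans h2) _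
      _ = _ := by ring
  -- the linear statistic
  obtain ⟨Y, hY⟩ : ∃ Y : Fin K → ℕ → ℝ, Y = fun i x =>
    ∑ p ∈ s, ((rho (P i) ((W : ℤ) * (x : ℕ) + c i) p : ℝ) - 1) / p := ⟨_, rfl⟩
  have hmain : ∀ u : Fin K → ℕ,
      ∏ p ∈ s, Fac P (fun i => (W : ℤ) * (u i : ℕ) + c i) p < 1 / L →
      1 ≤ (K : ℝ) * ∑ i, (Y i (u i)) ^ 2 := by
    intro u hu
    have h1 : Real.exp (-(∑ i, Y i (u i)) - 1) ≤
        ∏ p ∈ s, Fac P (fun i => (W : ℤ) * (u i : ℕ) + c i) p := by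
      have h2 : ∀ p ∈ s, Real.exp (-(∑ i, ((rho (P i) ((W : ℤ) * (u i : ℕ) + c i) p : ℝ) - 1) / p) -
          2 * ((D : ℝ) * K) ^ 2 * (1 / (p : ℝ) ^ 2)) ≤
          Fac P (fun i => (W : ℤ) * (u i : ℕ) + c i) p := by
        intro p hp
        obtain ⟨ha, hb, hc, hd⟩ := hsp p hp
        exact fac_ge P (fun i => (W : ℤ) * (u i : ℕ) + c i) p D ha
          (hNU.2.2 K D p P _ ha hdeg fun i => hprim i p ha) (hNU.2.1 K p P _)
          (lt_of_le_of_lt h8 hb)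
      refine le_trans ?_ (prod_le_prod (fun p _ => (Real.exp_pos _).le) h2)
      rw [← Real.exp_sum, Real.exp_le_exp, sum_sub_distrib, sum_neg_distrib, sum_comm,
        ← mul_sum, hY]
      have h3 : 2 * ((D : ℝ) * K) ^ 2 * ∑ p ∈ s, 1 / (p : ℝ) ^ 2 ≤ 1 := by
        have h4 : (0 : ℝ) < L ^ (A + 4) := by positivity
        have h5 : L ^ 4 ≤ L ^ (A + 4) := pow_le_pow_right₀ (by linarith) (by omega)
        calc 2 * ((D : ℝ) * K) ^ 2 * ∑ p ∈ s, 1 / (p : ℝ) ^ 2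
            ≤ 2 * (L ^ 4 / 4) * (2 / L ^ (A + 4)) :=
              mul_le_mul (by linarith) hsq (sum_nonneg fun p _ => by positivity) (by positivity)
          _ = L ^ 4 / L ^ (A + 4) := by ring
          _ ≤ 1 := by rw [div_le_one h4]; exact h5
      linarith
    have h2 : Real.exp (-(∑ i, Y i (u i)) - 1) < Real.exp (-Real.log L) := by
      rw [Real.exp_neg, Real.exp_log hL0, ← one_div]
      exact lt_of_le_of_lt h1 hu
    rw [Real.exp_lt_exp] at h2
    have h3 : 1 ≤ ∑ i, Y i (u i) := by linarith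
    have h4 : (∑ i, Y i (u i)) ^ 2 ≤ (K : ℝ) * ∑ i, (Y i (u i)) ^ 2 := by
      have := sq_sum_le_card_mul_sum_sq (s := (univ : Finset (Fin K))) (f := fun i => Y i (u i))
      simpa using this
    nlinarith
  -- the second moment
  obtain ⟨t, ht⟩ : ∃ t : ℝ, t = 3 * (D : ℝ) ^ 2 / L ^ (A + 4) := ⟨_, rfl⟩
  have hone : ∀ i : Fin K, ∑ x ∈ range (U i), (Y i x) ^ 2 ≤ U i * t := by
    intro i
    have h1 := hLC D (U i) W (c i) (P i) s hD (hdeg i) (fun p hp =>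
      ⟨(hsp p hp).1, hW p (hsp p hp).1 (hsp p hp).2.1, hprim i p (hsp p hp).1⟩)
    rw [hY]
    refine h1.trans ?_
    have h2 : (s.card : ℝ) ^ 2 ≤ U i / L ^ (A + 4) := by
      have h3 : (s.card : ℝ) ^ 2 ≤ L ^ (2 * E) := by
        calc (s.card : ℝ) ^ 2 ≤ (L ^ E) ^ 2 := pow_le_pow_left₀ (by positivity) hscard _
          _ = L ^ (2 * E) := by rw [← pow_mul]; ring_nf
      rw [le_div_iff₀ (by positivity)]
      calc (s.card : ℝ) ^ 2 * L ^ (A + 4) ≤ L ^ (2 * E) * L ^ (A + 4) :=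
            mul_le_mul_of_nonneg_right h3 (by positivity)
        _ = L ^ (2 * E + A + 4) := by rw [← pow_add]; ring_nf
        _ ≤ _ := hpowexp.trans (hU i)
    have h4 : (U i : ℝ) * ((D : ℝ) ^ 2 * ∑ p ∈ s, 1 / (p : ℝ) ^ 2) ≤
        U i * ((D : ℝ) ^ 2 * (2 / L ^ (A + 4))) := by
      apply mul_le_mul_of_nonneg_left _ (by positivity)
      exact mul_le_mul_of_nonneg_left hsq (by positivity)
    have h5 : (D : ℝ) ^ 2 * (s.card : ℝ) ^ 2 ≤ (D : ℝ) ^ 2 * (U i / L ^ (A + 4)) :=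
      mul_le_mul_of_nonneg_left h2 (by positivity)
    have h6 : (U i : ℝ) * t = U i * ((D : ℝ) ^ 2 * (2 / L ^ (A + 4))) +
        (D : ℝ) ^ 2 * (U i / L ^ (A + 4)) := by rw [ht]; ring
    rw [h6]
    exact add_le_add h4 h5
  have hprodU : 0 ≤ ∏ i, (U i : ℝ) := prod_nonneg fun i _ => by positivity
  have hsum : ∑ u ∈ Fintype.piFinset (fun i : Fin K => range (U i)),
      (K : ℝ) * ∑ i, (Y i (u i)) ^ 2 ≤ (∏ i, (U i : ℝ)) / L ^ A := by
    rw [← mul_sum, sum_comm]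
    have h1 : ∑ i, ∑ u ∈ Fintype.piFinset (fun i : Fin K => range (U i)), (Y i (u i)) ^ 2 ≤
        ∑ i : Fin K, (∏ j, (U j : ℝ)) * t :=
      sum_le_sum fun i _ => box_le U i (fun x => (Y i x) ^ 2) (fun x => sq_nonneg _) t (hone i)
    rw [sum_const, card_univ, Fintype.card_fin, nsmul_eq_mul] at h1
    have ht2 : (K : ℝ) ^ 2 * t ≤ 1 / L ^ A := by
      have h2 : (K : ℝ) ^ 2 * t = 3 * ((D : ℝ) * K) ^ 2 / L ^ (A + 4) := by rw [ht]; ring
      rw [h2]
      calc 3 * ((D : ℝ) * K) ^ 2 / L ^ (A + 4) ≤ L ^ 4 / L ^ (A + 4) := by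
            apply div_le_div_of_nonneg_right _ (by positivity)
            have : 0 ≤ L ^ 4 := by positivity
            linarith
        _ = 1 / L ^ A := by
            rw [pow_add]; field_simp
    calc (K : ℝ) * ∑ i, ∑ u ∈ Fintype.piFinset (fun i : Fin K => range (U i)), (Y i (u i)) ^ 2
        ≤ (K : ℝ) * (K * ((∏ j, (U j : ℝ)) * t)) :=
          mul_le_mul_of_nonneg_left h1 (by positivity)
      _ = (∏ j, (U j : ℝ)) * ((K : ℝ) ^ 2 * t) := by ring
      _ ≤ (∏ j, (U j : ℝ)) * (1 / L ^ A) := mul_le_mul_of_nonneg_left ht2 hprodU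
      _ = _ := by ring
  refine le_trans ?_ hsum
  rw [card_filter, Nat.cast_sum]
  apply sum_le_sum
  intro u _
  split_ifs with h
  · simpa using hmain u h
  · simp only [Nat.cast_zero]
    exact mul_nonneg (by positivity) (sum_nonneg fun i _ => sq_nonneg _)

end Run7.h834.PG
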